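import Pool.Agent.Lib.MP_5081b1_an.Main

set_option autoImplicit false

namespace Pool.Agent.Results.MP_5081b1_an.Doubling

/-- For odd `n ≠ m` and every `k` with `|m - n| + 6 ≤ 8 k < min n m` some system
`x' = P (x, y)`, `y' = Q (x, y)` with `P`, `Q` homogeneous of degrees `n`, `m` has at least
`n + m - 13 k` limit cycles. -/
theorem result (n m k : ℕ) (hn : Odd n) (hm : Odd m) (hne : n ≠ m)
    (h1 : m + 6 ≤ n + 8 * k) (h2 : n + 6 ≤ m + 8 * k) (h3 : 8 * k < n) (h4 : 8 * k < m) :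
    ∃ P Q : MvPolynomial (Fin 2) ℝ, P.IsHomogeneous n ∧ Q.IsHomogeneous m ∧
      ((n + m - 13 * k : ℕ) : ℕ∞) ≤ Set.encard
        {C : Set (ℝ × ℝ) |
          C ∈ {D : Set (ℝ × ℝ) | ∃ γ : ℝ → ℝ × ℝ, ∃ T : ℝ, 0 < T ∧
              (∀ t : ℝ, HasDerivAt γ
                (MvPolynomial.eval (![(γ t).1, (γ t).2] : Fin 2 → ℝ) P,
                 MvPolynomial.eval (![(γ t).1, (γ t).2] : Fin 2 → ℝ) Q) t) ∧
              (∀ t : ℝ, γ (t + T) = γ t) ∧ (∃ t : ℝ, γ t ≠ γ 0) ∧ D = Set.range γ} ∧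
          ∃ U : Set (ℝ × ℝ), IsOpen U ∧ C ⊆ U ∧
            ∀ D ∈ {D : Set (ℝ × ℝ) | ∃ γ : ℝ → ℝ × ℝ, ∃ T : ℝ, 0 < T ∧
              (∀ t : ℝ, HasDerivAt γ
                (MvPolynomial.eval (![(γ t).1, (γ t).2] : Fin 2 → ℝ) P,
                 MvPolynomial.eval (![(γ t).1, (γ t).2] : Fin 2 → ℝ) Q) t) ∧
              (∀ t : ℝ, γ (t + T) = γ t) ∧ (∃ t : ℝ, γ t ≠ γ 0) ∧ D = Set.range γ},
              (D ∩ U).Nonempty → D = C} :=
  Pool.Agent.LC5081.main_all hn hm hne h1 h2 h3 h4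

end Pool.Agent.Results.MP_5081b1_an.Doubling
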