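import Pool.Agent.Lib.MP_5081b1_an.Rnd

set_option autoImplicit false

namespace Pool.Agent.Results.MP_5081b1_an.Uniform

/-- For all odd `n ≠ m` some system `x' = P (x, y)`, `y' = Q (x, y)` with `P`, `Q` homogeneous of
degrees `n`, `m` has at least `(n + m) / 2 + min n m - 2 ⌊√|m - n|⌋ - C` limit cycles, where
`C = 5` if `|m - n| ≥ 16` and `C = 27` otherwise. -/
theorem result (n m : ℕ) (hn : Odd n) (hm : Odd m) (hne : n ≠ m) :
    ∃ P Q : MvPolynomial (Fin 2) ℝ, P.IsHomogeneous n ∧ Q.IsHomogeneous m ∧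
      (((n + m) / 2 + min n m - 2 * Nat.sqrt (max n m - min n m) -
        (if max n m - min n m < 16 then 27 else 5) : ℕ) : ℕ∞) ≤ Set.encard
        {C : Set (ℝ × ℝ) |
          C ∈ {D : Set (ℝ × ℝ) | ∃ γ : ℝ → ℝ × ℝ, ∃ T : ℝ, 0 < T ∧
              (∀ t : ℝ, HasDerivAt γ
                (MvPolynomial.eval (![(γ t).1, (γ t).2] : Fin 2 → ℝ) P,
                 MvPolynomial.eval (![(γ t).1, (γ t).2] : Fin 2 → ℝ) Q) t) ∧
              (∀ t : ℝ, γ (t + T) = γ t) ∧ (∃ t : ℝ, γ t ≠ γ 0) ∧ D = Set.range γ} ∧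
          ∃ U : Set (ℝ × ℝ), IsOpen U ∧ C ⊆ U ∧
            ∀ D ∈ {D : Set (ℝ × ℝ) | ∃ γ : ℝ → ℝ × ℝ, ∃ T : ℝ, 0 < T ∧
              (∀ t : ℝ, HasDerivAt γ
                (MvPolynomial.eval (![(γ t).1, (γ t).2] : Fin 2 → ℝ) P,
                 MvPolynomial.eval (![(γ t).1, (γ t).2] : Fin 2 → ℝ) Q) t) ∧
              (∀ t : ℝ, γ (t + T) = γ t) ∧ (∃ t : ℝ, γ t ≠ γ 0) ∧ D = Set.range γ},
              (D ∩ U).Nonempty → D = C} :=
  Pool.Agent.LC5081.main_uniform hn hm hne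

end Pool.Agent.Results.MP_5081b1_an.Uniform
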